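import Mathlib

/-!
# Lehmer's problem in terms of the number of monomials: definitions
-/

set_option autoImplicit false

open Polynomial

namespace Pool.Agent.H338R2.AS

/-- the polynomial `∑ c_j X^{a_j}` -/
noncomputable def sp {k : ℕ} (c : Fin k → ℤ) (a : Fin k → ℕ) : ℤ[X] :=
  ∑ j, C (c j) * X ^ (a j)

/-- the exponential sum `∑ c_j exp(2 π i a_j t)` -/
noncomputable def es {k : ℕ} (c : Fin k → ℂ) (a : Fin k → ℤ) (t : ℝ) : ℂ :=
  ∑ j, c j * Complex.exp (2 * Real.pi * Complex.I * (a j) * t)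

/-- logarithmic Mahler measure of an integer polynomial -/
noncomputable def lm (F : ℤ[X]) : ℝ := (F.map (Int.castRingHom ℂ)).logMahlerMeasure

/-- `a` and `d` satisfy the same linear relations of length at most `2m` with zero sum -/
def Sim {k : ℕ} (m : ℕ) (a d : Fin k → ℤ) : Prop :=
  ∀ u : Fin k → ℤ, ∑ j, u j = 0 → ∑ j, |u j| ≤ 2 * m →
    (∑ j, u j * a j = 0 ↔ ∑ j, u j * d j = 0)

end Pool.Agent.H338R2.AS
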