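import Pool.Agent.H2.L.R_seed8.H338R2.AS.Defs

/-!
# Task T2a: the set where an exponential sum is small and its derivative is large
-/

set_option autoImplicit false

open Polynomial MeasureTheory

namespace Pool.Agent.H338R2.AS

/-- the coefficients of the derivative -/
private noncomputable def dc {k : ℕ} (c : Fin k → ℂ) (a : Fin k → ℤ) : Fin k → ℂ :=
  fun j => 2 * Real.pi * Complex.I * (a j) * c j

private theorem t2a_hasDerivAt {k : ℕ} (c : Fin k → ℂ) (a : Fin k → ℤ) (t : ℝ) :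
    HasDerivAt (es c a) (es (dc c a) a t) t := by
  unfold es dc
  have h : ∀ j : Fin k, HasDerivAt (fun t : ℝ => c j * Complex.exp (2 * Real.pi * Complex.I * (a j) * t))
      (2 * Real.pi * Complex.I * (a j) * c j * Complex.exp (2 * Real.pi * Complex.I * (a j) * t)) t := by
    intro j
    have h1 : HasDerivAt (fun t : ℝ => 2 * Real.pi * Complex.I * (a j) * (t : ℂ))
        (2 * Real.pi * Complex.I * (a j)) t := by
      have := (Complex.ofRealCLM.hasDerivAt (x := t)).const_mul (2 * Real.pi * Complex.I * (a j : ℂ))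
      simpa using this
    have h2 := (h1.cexp).const_mul (c j)
    refine h2.congr_deriv ?_
    ring
  exact HasDerivAt.fun_sum fun j _ => h j

private theorem t2a_re {k : ℕ} (c : Fin k → ℂ) (a : Fin k → ℤ) (t : ℝ) :
    HasDerivAt (fun t => (es c a t).re) (es (dc c a) a t).re t :=
  (Complex.reCLM.hasFDerivAt.comp_hasDerivAt t (t2a_hasDerivAt c a t))

private theorem t2a_cont {k : ℕ} (c : Fin k → ℂ) (a : Fin k → ℤ) : Continuous (es c a) := by
  unfold es
  fun_prop

/-- the polynomial with roots at the points where the real part equals `θ` -/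
private noncomputable def lq {k : ℕ} (e : Fin k → ℂ) (a : Fin k → ℤ) (D : ℕ) (θ : ℝ) : ℂ[X] :=
  ∑ j, C (e j) * X ^ ((D : ℤ) + a j).toNat + ∑ j, C ((starRingEnd ℂ) (e j)) * X ^ ((D : ℤ) - a j).toNat -
    C (2 * (θ : ℂ)) * X ^ D

private theorem t2a_pow (D : ℕ) (n : ℤ) (hn : |n| ≤ D) (t : ℝ) :
    Complex.exp (2 * Real.pi * Complex.I * t) ^ ((D : ℤ) + n).toNat =
      Complex.exp (2 * Real.pi * Complex.I * t) ^ D *
        Complex.exp (2 * Real.pi * Complex.I * n * t) := by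
  rw [abs_le] at hn
  rw [← Complex.exp_nat_mul, ← Complex.exp_nat_mul, ← Complex.exp_add]
  congr 1
  have h : (((((D : ℤ) + n).toNat : ℕ) : ℤ) : ℂ) = (((D : ℤ) + n : ℤ) : ℂ) := by
    rw [Int.toNat_of_nonneg (by omega)]
  have h2 : ((((D : ℤ) + n).toNat : ℕ) : ℂ) = (D : ℂ) + (n : ℂ) := by
    have : ((((D : ℤ) + n).toNat : ℕ) : ℂ) = (((((D : ℤ) + n).toNat : ℕ) : ℤ) : ℂ) := by
      push_cast
      rfl
    rw [this, h]
    push_cast
    rfl
  rw [h2]
  ring

private theorem t2a_eval {k : ℕ} (e : Fin k → ℂ) (a : Fin k → ℤ) (D : ℕ) (ha : ∀ j, |a j| ≤ D)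
    (θ t : ℝ) (h : (es e a t).re = θ) :
    (lq e a D θ).eval (Complex.exp (2 * Real.pi * Complex.I * t)) = 0 := by
  unfold lq
  rw [eval_sub, eval_add, eval_finset_sum, eval_finset_sum]
  simp only [eval_mul, eval_C, eval_pow, eval_X]
  set z := Complex.exp (2 * Real.pi * Complex.I * t) with hz
  have h1 : ∑ j, e j * z ^ ((D : ℤ) + a j).toNat = z ^ D * es e a t := by
    unfold es
    rw [Finset.mul_sum]
    refine Finset.sum_congr rfl fun j _ => ?_
    rw [hz, t2a_pow D (a j) (ha j) t]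
    ring
  have h2 : ∑ j, (starRingEnd ℂ) (e j) * z ^ ((D : ℤ) - a j).toNat =
      z ^ D * (starRingEnd ℂ) (es e a t) := by
    unfold es
    rw [map_sum, Finset.mul_sum]
    refine Finset.sum_congr rfl fun j _ => ?_
    have h3 := t2a_pow D (-a j) (by rw [abs_neg]; exact ha j) t
    rw [← sub_eq_add_neg] at h3
    rw [hz, h3, map_mul, ← Complex.exp_conj]
    have h4 : (starRingEnd ℂ) (2 * Real.pi * Complex.I * (a j) * t) =
        2 * Real.pi * Complex.I * ((-a j : ℤ) : ℂ) * t := by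
      simp only [map_mul, Complex.conj_I, Complex.conj_ofReal, map_ofNat, map_intCast]
      push_cast
      ring
    rw [h4]
    ring
  rw [h1, h2, ← mul_add, Complex.add_conj, h]
  push_cast
  ring

private theorem t2a_coeff {k : ℕ} (c : Fin k → ℂ) (a : Fin k → ℤ) (D : ℕ) (ha : ∀ j, |a j| ≤ D)
    (θ : ℝ) : (lq (dc c a) a D θ).coeff D = -(2 * (θ : ℂ)) := by
  unfold lq
  rw [coeff_sub, coeff_add, finset_sum_coeff, finset_sum_coeff]
  simp only [coeff_C_mul, coeff_X_pow]
  have h1 : ∀ j : Fin k, dc c a j * (if D = ((D : ℤ) + a j).toNat then 1 else 0) = 0 := by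
    intro j
    have := ha j
    rw [abs_le] at this
    by_cases h : D = ((D : ℤ) + a j).toNat
    · have h0 : a j = 0 := by omega
      unfold dc
      rw [h0]
      simp
    · rw [if_neg h, mul_zero]
  have h2 : ∀ j : Fin k, (starRingEnd ℂ) (dc c a j) *
      (if D = ((D : ℤ) - a j).toNat then 1 else 0) = 0 := by
    intro j
    have := ha j
    rw [abs_le] at this
    by_cases h : D = ((D : ℤ) - a j).toNat
    · have h0 : a j = 0 := by omega
      unfold dc
      rw [h0]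
      simp
    · rw [if_neg h, mul_zero]
  rw [Finset.sum_eq_zero fun j _ => h1 j, Finset.sum_eq_zero fun j _ => h2 j]
  simp

private theorem t2a_deg {k : ℕ} (e : Fin k → ℂ) (a : Fin k → ℤ) (D : ℕ) (ha : ∀ j, |a j| ≤ D)
    (θ : ℝ) : (lq e a D θ).natDegree ≤ 2 * D := by
  unfold lq
  refine (natDegree_sub_le _ _).trans (max_le ((natDegree_add_le _ _).trans (max_le ?_ ?_)) ?_)
  · refine natDegree_sum_le_of_forall_le _ _ fun j _ => (natDegree_C_mul_X_pow_le _ _).trans ?_
    have := ha j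
    rw [abs_le] at this
    omega
  · refine natDegree_sum_le_of_forall_le _ _ fun j _ => (natDegree_C_mul_X_pow_le _ _).trans ?_
    have := ha j
    rw [abs_le] at this
    omega
  · exact (natDegree_C_mul_X_pow_le _ _).trans (by omega)

private theorem t2a_inj : Set.InjOn (fun t : ℝ => Complex.exp (2 * Real.pi * Complex.I * t))
    (Set.Ico 0 1) := by
  intro s hs t ht hst
  simp only at hst
  rw [Complex.exp_eq_exp_iff_exists_int] at hst
  obtain ⟨n, hn⟩ := hst
  have hpi : (2 * Real.pi * Complex.I : ℂ) ≠ 0 := Complex.two_pi_I_ne_zero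
  have h1 : (s : ℂ) = (t : ℂ) + n := by
    apply mul_left_cancel₀ hpi
    rw [hn]
    ring
  have h2 : s = t + n := by exact_mod_cast h1
  have h3 : (n : ℝ) < 1 := by linarith [hs.2, ht.1]
  have h4 : (-1 : ℝ) < n := by linarith [hs.1, ht.2]
  have h5 : n = 0 := by
    have h6 : n < 1 := by exact_mod_cast h3
    have h7 : -1 < n := by exact_mod_cast h4
    omega
  rw [h2, h5]
  simp

private theorem t2a_zeros {k : ℕ} (c : Fin k → ℂ) (a : Fin k → ℤ) (D : ℕ) (ha : ∀ j, |a j| ≤ D)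
    (θ : ℝ) (hθ : θ ≠ 0) :
    {t : ℝ | t ∈ Set.Ico (0 : ℝ) 1 ∧ (es (dc c a) a t).re = θ}.Finite ∧
    {t : ℝ | t ∈ Set.Ico (0 : ℝ) 1 ∧ (es (dc c a) a t).re = θ}.ncard ≤ 2 * D := by
  set Q := lq (dc c a) a D θ with hQ
  have hQ0 : Q ≠ 0 := by
    intro h0
    have h1 := t2a_coeff c a D ha θ
    rw [← hQ, h0, coeff_zero] at h1
    have h2 : (2 * (θ : ℂ)) = 0 := by
      rw [eq_comm, neg_eq_zero] at h1
      exact h1
    rcases mul_eq_zero.1 h2 with h3 | h3
    · exact absurd h3 two_ne_zero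
    · exact hθ (by exact_mod_cast h3)
  have hmaps : ∀ t ∈ {t : ℝ | t ∈ Set.Ico (0 : ℝ) 1 ∧ (es (dc c a) a t).re = θ},
      (fun t : ℝ => Complex.exp (2 * Real.pi * Complex.I * t)) t ∈ (Q.roots.toFinset : Set ℂ) := by
    rintro t ⟨-, ht⟩
    rw [Finset.mem_coe, Multiset.mem_toFinset, mem_roots hQ0]
    exact t2a_eval _ _ _ ha _ _ ht
  have hinj : Set.InjOn (fun t : ℝ => Complex.exp (2 * Real.pi * Complex.I * t))
      {t : ℝ | t ∈ Set.Ico (0 : ℝ) 1 ∧ (es (dc c a) a t).re = θ} :=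
    t2a_inj.mono fun t ht => ht.1
  refine ⟨Set.Finite.of_injOn hmaps hinj (Finset.finite_toSet _), ?_⟩
  refine (Set.ncard_le_ncard_of_injOn _ hmaps hinj (Finset.finite_toSet _)).trans ?_
  rw [Set.ncard_coe_finset]
  exact (Multiset.toFinset_card_le _).trans ((card_roots' _).trans (t2a_deg _ _ _ ha _))

/-- the real version -/
private theorem t2a_real {k : ℕ} (c : Fin k → ℂ) (a : Fin k → ℤ) (D : ℕ) (hD : 1 ≤ D)
    (ha : ∀ j, |a j| ≤ D) (T κ : ℝ) (hT : 0 < T) (hκ : 0 < κ) :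
    volume {t : ℝ | t ∈ Set.Icc (0:ℝ) 1 ∧ |(es c a t).re| < T ∧ κ ≤ |(es (dc c a) a t).re|} ≤
      ENNReal.ofReal (10 * D * (T / κ)) := by
  classical
  obtain ⟨f1, n1⟩ := t2a_zeros c a D ha κ hκ.ne'
  obtain ⟨f2, n2⟩ := t2a_zeros c a D ha (-κ) (neg_ne_zero.2 hκ.ne')
  let S : Finset ℝ := f1.toFinset ∪ f2.toFinset
  have hS : ∀ t ∈ Set.Ico (0 : ℝ) 1, |(es (dc c a) a t).re| = κ → t ∈ S := by
    intro t ht h
    rw [Finset.mem_union, Set.Finite.mem_toFinset, Set.Finite.mem_toFinset]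
    rcases eq_or_eq_neg_of_abs_eq h with h | h
    · exact Or.inl ⟨ht, h⟩
    · exact Or.inr ⟨ht, h⟩
  have hScard : S.card ≤ 4 * D := by
    refine (Finset.card_union_le _ _).trans ?_
    rw [← Set.ncard_eq_toFinset_card _ f1, ← Set.ncard_eq_toFinset_card _ f2]
    omega
  let A : ℕ → Set ℝ := fun i => {t : ℝ | t ∈ Set.Ico (0:ℝ) 1 ∧ t ∉ S ∧
    (S.filter (· < t)).card = i ∧ |(es c a t).re| < T ∧ κ ≤ |(es (dc c a) a t).re|}
  -- diameter of each piece
  have hlt : ∀ i, ∀ x ∈ A i, ∀ y ∈ A i, x < y → y - x ≤ 2 * T / κ := by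
    rintro i x ⟨hx, hxS, hxi, hxT, hxk⟩ y ⟨hy, hyS, hyi, hyT, hyk⟩ hxy
    -- no point of `S` between
    have hno : ∀ s ∈ Set.Icc x y, |(es (dc c a) a s).re| ≠ κ := by
      intro s hs hcon
      have hsS : s ∈ S := hS s ⟨hx.1.trans hs.1, lt_of_le_of_lt hs.2 hy.2⟩ hcon
      have hxs : x < s := lt_of_le_of_ne hs.1 fun h => hxS (h ▸ hsS)
      have hsy : s < y := lt_of_le_of_ne hs.2 fun h => hyS (h ▸ hsS)
      have hsub : S.filter (· < x) ⊂ S.filter (· < y) := by
        rw [Finset.ssubset_iff_of_subset]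
        · exact ⟨s, Finset.mem_filter.2 ⟨hsS, hsy⟩, fun h =>
            absurd (Finset.mem_filter.1 h).2 (not_lt.2 hxs.le)⟩
        · intro u hu
          rw [Finset.mem_filter] at hu ⊢
          exact ⟨hu.1, hu.2.trans hxy⟩
      have := Finset.card_lt_card hsub
      omega
    have hgt : ∀ s ∈ Set.Icc x y, κ < |(es (dc c a) a s).re| := by
      intro s hs
      by_contra hcon
      rw [not_lt] at hcon
      have hc : ContinuousOn (fun s => |(es (dc c a) a s).re|) (Set.Icc x s) :=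
        (continuous_abs.comp (Complex.continuous_re.comp (t2a_cont _ _))).continuousOn
      have := intermediate_value_Icc' hs.1 hc
      obtain ⟨u, hu, hu'⟩ := this (Set.mem_Icc.2 ⟨hcon, hxk⟩)
      exact hno u ⟨hu.1, hu.2.trans hs.2⟩ hu'
    obtain ⟨ξ, hξ, hmv⟩ := exists_hasDerivAt_eq_slope (fun t => (es c a t).re)
      (fun t => (es (dc c a) a t).re) hxy
      (Complex.continuous_re.comp (t2a_cont _ _)).continuousOn (fun t _ => t2a_re c a t)
    have h1 := hgt ξ ⟨hξ.1.le, hξ.2.le⟩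
    rw [hmv, abs_div, abs_of_pos (sub_pos.2 hxy), lt_div_iff₀ (sub_pos.2 hxy)] at h1
    have h2 : |(es c a y).re - (es c a x).re| < 2 * T := by
      refine lt_of_le_of_lt (abs_sub _ _) ?_
      linarith
    rw [le_div_iff₀ hκ]
    linarith
  have hA : ∀ i, volume (A i) ≤ ENNReal.ofReal (2 * T / κ) := by
    intro i
    refine (Real.volume_le_diam _).trans (EMetric.diam_le ?_)
    intro x hx y hy
    rw [edist_dist, Real.dist_eq]
    refine ENNReal.ofReal_le_ofReal ?_
    rcases lt_trichotomy x y with h | h | h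
    · rw [abs_sub_comm, abs_of_pos (sub_pos.2 h)]
      exact hlt i x hx y hy h
    · rw [h, sub_self, abs_zero]
      positivity
    · rw [abs_of_pos (sub_pos.2 h)]
      exact hlt i y hy x hx h
  have hcover : {t : ℝ | t ∈ Set.Icc (0:ℝ) 1 ∧ |(es c a t).re| < T ∧
      κ ≤ |(es (dc c a) a t).re|} ⊆
      ((S ∪ {1} : Finset ℝ) : Set ℝ) ∪ ⋃ i ∈ Finset.range (4 * D + 1), A i := by
    rintro t ⟨ht, h1, h2⟩
    by_cases ht1 : t = 1
    · left
      rw [ht1]
      simp
    by_cases htS : t ∈ S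
    · left
      rw [Finset.mem_coe, Finset.mem_union]
      exact Or.inl htS
    · right
      rw [Set.mem_iUnion₂]
      refine ⟨(S.filter (· < t)).card, ?_, ⟨ht.1, lt_of_le_of_ne ht.2 ht1⟩, htS, rfl, h1, h2⟩
      rw [Finset.mem_range]
      exact lt_of_le_of_lt (Finset.card_filter_le _ _) (by omega)
  refine (measure_mono hcover).trans ((measure_union_le _ _).trans ?_)
  rw [(Finset.finite_toSet _).measure_zero, zero_add]
  refine (measure_biUnion_finset_le _ _).trans ((Finset.sum_le_sum fun i _ => hA i).trans ?_)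
  rw [Finset.sum_const, Finset.card_range, nsmul_eq_mul, ← ENNReal.ofReal_natCast,
    ← ENNReal.ofReal_mul (by positivity)]
  refine ENNReal.ofReal_le_ofReal ?_
  have hD' : (1 : ℝ) ≤ D := by exact_mod_cast hD
  have h3 : 0 < T / κ := by positivity
  push_cast
  rw [mul_div_assoc]
  nlinarith

/-- TASK T2a -/
theorem level_lemma {k : ℕ} (c : Fin k → ℂ) (a : Fin k → ℤ) (D : ℕ) (hD : 1 ≤ D)
    (ha : ∀ j, |a j| ≤ D) (T κ : ℝ) (hT : 0 < T) (hκ : 0 < κ) :
    volume {t : ℝ | t ∈ Set.Icc (0:ℝ) 1 ∧ ‖es c a t‖ < T ∧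
      2 * κ ≤ ‖es (fun j => 2 * Real.pi * Complex.I * (a j) * c j) a t‖} ≤
      ENNReal.ofReal (20 * D * (T / κ)) := by
  have hmul : ∀ (b : Fin k → ℂ) (t : ℝ), es (fun j => -Complex.I * b j) a t =
      -Complex.I * es b a t := by
    intro b t
    unfold es
    rw [Finset.mul_sum]
    exact Finset.sum_congr rfl fun j _ => by ring
  have hdc : dc (fun j => -Complex.I * c j) a = fun j => -Complex.I * dc c a j := by
    funext j
    unfold dc
    ring
  have him : ∀ z : ℂ, (-Complex.I * z).re = z.im := by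
    intro z
    simp
  have hcover : {t : ℝ | t ∈ Set.Icc (0:ℝ) 1 ∧ ‖es c a t‖ < T ∧
      2 * κ ≤ ‖es (fun j => 2 * Real.pi * Complex.I * (a j) * c j) a t‖} ⊆
      {t : ℝ | t ∈ Set.Icc (0:ℝ) 1 ∧ |(es c a t).re| < T ∧ κ ≤ |(es (dc c a) a t).re|} ∪
      {t : ℝ | t ∈ Set.Icc (0:ℝ) 1 ∧ |(es (fun j => -Complex.I * c j) a t).re| < T ∧
        κ ≤ |(es (dc (fun j => -Complex.I * c j) a) a t).re|} := by
    rintro t ⟨ht, h1, h2⟩
    have h3 : 2 * κ ≤ |(es (dc c a) a t).re| + |(es (dc c a) a t).im| :=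
      h2.trans (Complex.norm_le_abs_re_add_abs_im _)
    by_cases h4 : κ ≤ |(es (dc c a) a t).re|
    · exact Or.inl ⟨ht, lt_of_le_of_lt (Complex.abs_re_le_norm _) h1, h4⟩
    · right
      refine ⟨ht, ?_, ?_⟩
      · rw [hmul, him]
        exact lt_of_le_of_lt (Complex.abs_im_le_norm _) h1
      · rw [hdc, hmul, him]
        linarith [not_le.1 h4]
  refine (measure_mono hcover).trans ((measure_union_le _ _).trans ?_)
  refine (add_le_add (t2a_real c a D hD ha T κ hT hκ)
    (t2a_real (fun j => -Complex.I * c j) a D hD ha T κ hT hκ)).trans ?_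
  rw [← ENNReal.ofReal_add (by positivity) (by positivity)]
  refine ENNReal.ofReal_le_ofReal (le_of_eq (by ring))

end Pool.Agent.H338R2.AS
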