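import Pool.Agent.H2.L.R_seed8.H338R2.AS.Defs
import Pool.Agent.H2.L.R_seed8.H338R2.AS.T1
import Pool.Agent.H2.L.R_seed8.H338R2.AS.T2

/-! Lehmer by number of monomials, task T3: comparison of logarithmic Mahler measures. -/

set_option autoImplicit false

open Polynomial MeasureTheory

namespace Pool.Agent.H338R2.AS

namespace T3

/-- the truncated logarithm -/
noncomputable def RR (m : ℕ) (w : ℝ) : ℝ :=
  -Real.log w - ∑ i ∈ Finset.range m, (1 - w) ^ (i + 1) / (i + 1)

lemma RR_nonneg (m : ℕ) {w : ℝ} (hw0 : 0 < w) (hw1 : w ≤ 1) : 0 ≤ RR m w := by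
  have h : |1 - w| < 1 := by rw [abs_lt]; constructor <;> linarith
  have hs := Real.hasSum_pow_div_log_of_abs_lt_one h
  have h1 : ∑ i ∈ Finset.range m, (1 - w) ^ (i + 1) / ((i : ℝ) + 1) ≤ -Real.log (1 - (1 - w)) :=
    sum_le_hasSum _ (fun i _ => div_nonneg (pow_nonneg (by linarith) _) (by positivity)) hs
  rw [sub_sub_cancel] at h1
  unfold RR
  linarith

lemma RR_le_log (m : ℕ) {w : ℝ} (hw1 : w ≤ 1) : RR m w ≤ -Real.log w := by
  have : 0 ≤ ∑ i ∈ Finset.range m, (1 - w) ^ (i + 1) / ((i : ℝ) + 1) :=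
    Finset.sum_nonneg fun i _ => div_nonneg (pow_nonneg (by linarith) _) (by positivity)
  unfold RR
  linarith

lemma RR_le_exp (m : ℕ) {w ρ : ℝ} (hρ : 0 < ρ) (hρw : ρ ≤ w) (hw1 : w ≤ 1) :
    RR m w ≤ Real.exp (-(m * ρ)) / ρ := by
  have hw0 : 0 < w := by linarith
  have h : |1 - w| < 1 := by rw [abs_lt]; constructor <;> linarith
  have h1 := Real.abs_log_sub_add_sum_range_le h m
  rw [sub_sub_cancel, abs_of_nonneg (by linarith : (0 : ℝ) ≤ 1 - w), sub_sub_cancel] at h1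
  have h2 : RR m w ≤ (1 - w) ^ (m + 1) / w := by
    have := neg_abs_le ((∑ i ∈ Finset.range m, (1 - w) ^ (i + 1) / ((i : ℝ) + 1)) + Real.log w)
    unfold RR
    linarith
  have h3 : (1 - w) ^ (m + 1) ≤ Real.exp (-(m * ρ)) := by
    have h4 : 1 - w ≤ Real.exp (-ρ) := by
      have := Real.add_one_le_exp (-ρ)
      linarith
    calc (1 - w) ^ (m + 1) ≤ (1 - w) ^ m :=
          pow_le_pow_of_le_one (by linarith) (by linarith) (Nat.le_succ m)
      _ ≤ Real.exp (-ρ) ^ m := pow_le_pow_left₀ (by linarith) h4 m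
      _ = Real.exp (-(m * ρ)) := by
          rw [← Real.exp_nat_mul]; congr 1; ring
  refine h2.trans ?_
  exact div_le_div₀ (Real.exp_pos _).le h3 hρ hρw

section layer
variable (G : ℝ → ℂ) (r : ℕ) (H s : ℝ)

/-- the level sets -/
def VV (n : ℕ) : Set ℝ := {t : ℝ | t ∈ Set.Icc (0:ℝ) 1 ∧ ‖G t‖ < ((s / 2 ^ n) / 2) ^ r * H}

variable {G r H s}

lemma VV_meas (hG : Continuous G) (n : ℕ) : MeasurableSet (VV G r H s n) :=
  measurableSet_Icc.inter (measurableSet_lt hG.norm.measurable measurable_const)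

lemma VV_tendsto (hr : 1 ≤ r) :
    Filter.Tendsto (fun n : ℕ => ((s / 2 ^ n) / 2) ^ r * H) Filter.atTop (nhds 0) := by
  have h1 : Filter.Tendsto (fun n : ℕ => (s / 2) * (1 / 2 : ℝ) ^ n) Filter.atTop (nhds 0) := by
    have := (tendsto_pow_atTop_nhds_zero_of_lt_one (r := (1 / 2 : ℝ)) (by norm_num)
      (by norm_num)).const_mul (s / 2)
    simpa using this
  have h2 := (h1.pow r).mul_const H
  rw [zero_pow (by omega), zero_mul] at h2
  refine h2.congr fun n => ?_
  rw [one_div, inv_pow]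
  congr 2
  field_simp

open Classical in
lemma layer (hr : 1 ≤ r) (hs : 0 < s) (hs1 : s ≤ 1) (hH : 0 < H) {L : ℝ} (hHL : H ≤ L)
    (hLH : L ≤ (r + 1) * H)
    {t : ℝ} (ht : t ∈ Set.Icc (0 : ℝ) 1) (hw : 0 < ‖G t‖)
    (hlt : ‖G t‖ ^ 2 / L ^ 2 < (s / 2) ^ (2 * r) / (r + 1) ^ 2) :
    ENNReal.ofReal (-Real.log (‖G t‖ ^ 2 / L ^ 2)) ≤
      ENNReal.ofReal (2 * Real.log (r + 1) + 2 * r * Real.log (2 / s)) *
        (VV G r H s 0).indicator 1 t +
      ENNReal.ofReal (2 * r * Real.log 2) * ∑' n, (VV G r H s n).indicator 1 t := by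
  have hL : 0 < L := by linarith
  have hr1 : (0 : ℝ) < r + 1 := by positivity
  have ht0 : t ∈ VV G r H s 0 := by
    refine ⟨ht, ?_⟩
    have h1 : ‖G t‖ ^ 2 < ((s / 2) ^ r * H) ^ 2 := by
      rw [div_lt_div_iff₀ (by positivity) (by positivity)] at hlt
      have h2 : (s / 2) ^ (2 * r) * L ^ 2 ≤ (s / 2) ^ (2 * r) * ((r + 1) * H) ^ 2 :=
        mul_le_mul_of_nonneg_left (pow_le_pow_left₀ hL.le hLH 2) (by positivity)
      have h3 : ‖G t‖ ^ 2 * (r + 1) ^ 2 < ((s / 2) ^ r * H) ^ 2 * (r + 1) ^ 2 := by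
        calc ‖G t‖ ^ 2 * (r + 1) ^ 2 < (s / 2) ^ (2 * r) * L ^ 2 := hlt
          _ ≤ (s / 2) ^ (2 * r) * ((r + 1) * H) ^ 2 := h2
          _ = ((s / 2) ^ r * H) ^ 2 * (r + 1) ^ 2 := by rw [mul_comm 2 r, pow_mul]; ring
      exact lt_of_mul_lt_mul_right h3 (by positivity)
    have h4 := lt_of_pow_lt_pow_left₀ 2 (by positivity) h1
    simpa using h4
  have hex : ∃ n, t ∉ VV G r H s n := by
    have := (VV_tendsto (s := s) (H := H) hr).eventually (gt_mem_nhds hw)
    obtain ⟨n, hn⟩ := this.exists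
    exact ⟨n, fun h => absurd h.2 (not_lt.mpr hn.le)⟩
  set n₀ := Nat.find hex with hn₀
  have hn1 : t ∉ VV G r H s n₀ := Nat.find_spec hex
  have hn2 : ∀ i < n₀, t ∈ VV G r H s i := fun i hi => not_not.mp (Nat.find_min hex hi)
  have hge : ((s / 2 ^ n₀) / 2) ^ r * H ≤ ‖G t‖ := by
    by_contra hcon
    exact hn1 ⟨ht, not_le.mp hcon⟩
  have hlog : -Real.log (‖G t‖ ^ 2 / L ^ 2) ≤
      (2 * Real.log (r + 1) + 2 * r * Real.log (2 / s)) + (2 * r * Real.log 2) * n₀ := by
    rw [Real.log_div (by positivity) (by positivity), Real.log_pow, Real.log_pow]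
    have h5 : Real.log (((s / 2 ^ n₀) / 2) ^ r * H) ≤ Real.log ‖G t‖ :=
      Real.log_le_log (by positivity) hge
    rw [Real.log_mul (by positivity) hH.ne', Real.log_pow, Real.log_div (by positivity) two_ne_zero,
      Real.log_div hs.ne' (by positivity), Real.log_pow] at h5
    have h6 : Real.log L ≤ Real.log (r + 1) + Real.log H := by
      rw [← Real.log_mul hr1.ne' hH.ne']
      exact Real.log_le_log hL hLH
    have h7 : Real.log (2 / s) = Real.log 2 - Real.log s := Real.log_div two_ne_zero hs.ne'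
    rw [h7]
    push_cast
    nlinarith
  have hα : 0 ≤ 2 * Real.log (r + 1) + 2 * r * Real.log (2 / s) := by
    have h8 : 0 ≤ Real.log ((r : ℝ) + 1) := Real.log_nonneg (by linarith [Nat.cast_nonneg (α := ℝ) r])
    have h9 : 0 ≤ Real.log (2 / s) := Real.log_nonneg (by rw [le_div_iff₀ hs]; linarith)
    positivity
  have hβ : 0 ≤ 2 * r * Real.log 2 := by
    have := Real.log_nonneg (show (1 : ℝ) ≤ 2 by norm_num)
    positivity
  have htsum : (n₀ : ENNReal) ≤ ∑' n, (VV G r H s n).indicator (1 : ℝ → ENNReal) t := by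
    have h1 := ENNReal.sum_le_tsum (f := fun n => (VV G r H s n).indicator (1 : ℝ → ENNReal) t)
      (Finset.range n₀)
    refine le_trans (le_of_eq ?_) h1
    rw [Finset.sum_congr rfl fun n hn => show (VV G r H s n).indicator (1 : ℝ → ENNReal) t = 1 by
      rw [Set.indicator_of_mem (hn2 n (Finset.mem_range.mp hn))]; rfl]
    simp
  have hone : (VV G r H s 0).indicator (1 : ℝ → ENNReal) t = 1 := by
    rw [Set.indicator_of_mem ht0]; rfl
  rw [hone, mul_one]
  calc ENNReal.ofReal (-Real.log (‖G t‖ ^ 2 / L ^ 2))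
      ≤ ENNReal.ofReal ((2 * Real.log (r + 1) + 2 * r * Real.log (2 / s)) +
          (2 * r * Real.log 2) * n₀) := ENNReal.ofReal_le_ofReal hlog
    _ = ENNReal.ofReal (2 * Real.log (r + 1) + 2 * r * Real.log (2 / s)) +
          ENNReal.ofReal (2 * r * Real.log 2) * n₀ := by
        rw [ENNReal.ofReal_add hα (by positivity), ENNReal.ofReal_mul hβ, ENNReal.ofReal_natCast]
    _ ≤ _ := by gcongr

end layer

section onesum
variable {G : ℝ → ℂ} {r : ℕ} {H L : ℝ}

/-- the zero set is null -/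
lemma zero_null (hH : 0 < H)
    (hV : ∀ s : ℝ, 0 < s → volume {t : ℝ | t ∈ Set.Icc (0:ℝ) 1 ∧ ‖G t‖ < (s / 2) ^ r * H} ≤
      ENNReal.ofReal (20 * r * s)) :
    volume {t : ℝ | t ∈ Set.Icc (0:ℝ) 1 ∧ ‖G t‖ = 0} = 0 := by
  have h1 : ∀ n : ℕ, volume {t : ℝ | t ∈ Set.Icc (0:ℝ) 1 ∧ ‖G t‖ = 0} ≤
      ENNReal.ofReal (20 * r * (1 / 2) ^ n) := by
    intro n
    refine le_trans (measure_mono ?_) (hV ((1 / 2) ^ n) (by positivity))
    rintro t ⟨ht, h0⟩
    refine ⟨ht, ?_⟩
    rw [h0]; positivity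
  have h2 : Filter.Tendsto (fun n : ℕ => ENNReal.ofReal (20 * r * (1 / 2) ^ n)) Filter.atTop
      (nhds 0) := by
    have h3 : Filter.Tendsto (fun n : ℕ => (20 : ℝ) * r * (1 / 2) ^ n) Filter.atTop (nhds 0) := by
      have := (tendsto_pow_atTop_nhds_zero_of_lt_one (r := (1 / 2 : ℝ)) (by norm_num)
        (by norm_num)).const_mul ((20 : ℝ) * r)
      simpa using this
    have := ENNReal.tendsto_ofReal h3
    simpa using this
  exact le_antisymm (ge_of_tendsto' h2 h1) zero_le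

lemma one_sum (m : ℕ) (hr : 1 ≤ r) (hG : Continuous G) (hH : 0 < H) (hHL : H ≤ L)
    (hLH : L ≤ (r + 1) * H) (hGL : ∀ t, ‖G t‖ ≤ L)
    (hV : ∀ s : ℝ, 0 < s → volume {t : ℝ | t ∈ Set.Icc (0:ℝ) 1 ∧ ‖G t‖ < (s / 2) ^ r * H} ≤
      ENNReal.ofReal (20 * r * s))
    (s : ℝ) (hs : 0 < s) (hs1 : s ≤ 1) :
    0 ≤ ∫ t in (0:ℝ)..1, RR m (‖G t‖ ^ 2 / L ^ 2) ∧
    ∫ t in (0:ℝ)..1, RR m (‖G t‖ ^ 2 / L ^ 2) ≤
      Real.exp (-(m * ((s / 2) ^ (2 * r) / (r + 1) ^ 2))) / ((s / 2) ^ (2 * r) / (r + 1) ^ 2) +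
        20 * r * s * (2 * Real.log (r + 1) + 2 * r * Real.log (2 / s) + 4 * r * Real.log 2) := by
  classical
  have hL : 0 < L := by linarith
  set μ : Measure ℝ := volume.restrict (Set.Ioc 0 1) with hμ
  set ρ : ℝ := (s / 2) ^ (2 * r) / (r + 1) ^ 2 with hρ
  have hρ0 : 0 < ρ := by positivity
  set α : ℝ := 2 * Real.log (r + 1) + 2 * r * Real.log (2 / s) with hα
  set β : ℝ := 2 * r * Real.log 2 with hβ
  set E : ℝ := Real.exp (-(m * ρ)) / ρ with hE
  have hE0 : 0 ≤ E := by positivity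
  have hα0 : 0 ≤ α := by
    have h8 : 0 ≤ Real.log ((r : ℝ) + 1) := Real.log_nonneg (by linarith [Nat.cast_nonneg (α := ℝ) r])
    have h9 : 0 ≤ Real.log (2 / s) := Real.log_nonneg (by rw [le_div_iff₀ hs]; linarith)
    positivity
  have hβ0 : 0 ≤ β := by
    have := Real.log_nonneg (show (1 : ℝ) ≤ 2 by norm_num)
    positivity
  have hw1 : ∀ t, ‖G t‖ ^ 2 / L ^ 2 ≤ 1 := by
    intro t
    rw [div_le_one (by positivity)]
    exact pow_le_pow_left₀ (norm_nonneg _) (hGL t) 2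
  have hae : ∀ᵐ t ∂μ, 0 < ‖G t‖ := by
    rw [hμ, ae_restrict_iff' measurableSet_Ioc]
    have h0 := zero_null hH hV
    rw [ae_iff]
    refine measure_mono_null ?_ h0
    intro t ht
    simp only [Set.mem_ofPred_eq, not_forall, not_lt] at ht
    obtain ⟨h1, h2⟩ := ht
    exact ⟨⟨h1.1.le, h1.2⟩, le_antisymm h2 (norm_nonneg _)⟩
  have hmem : ∀ᵐ t ∂μ, t ∈ Set.Icc (0 : ℝ) 1 := by
    rw [hμ]
    exact (ae_restrict_mem measurableSet_Ioc).mono fun t ht => ⟨ht.1.le, ht.2⟩
  have hnn : 0 ≤ᵐ[μ] fun t => RR m (‖G t‖ ^ 2 / L ^ 2) := by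
    filter_upwards [hae] with t ht
    exact RR_nonneg m (by positivity) (hw1 t)
  have hint : ∫ t in (0:ℝ)..1, RR m (‖G t‖ ^ 2 / L ^ 2) = ∫ t, RR m (‖G t‖ ^ 2 / L ^ 2) ∂μ := by
    rw [intervalIntegral.integral_of_le zero_le_one]
  rw [hint]
  refine ⟨integral_nonneg_of_ae hnn, ?_⟩
  have hB : 0 ≤ E + 20 * r * s * (α + 4 * r * Real.log 2) := by
    have := Real.log_nonneg (show (1 : ℝ) ≤ 2 by norm_num)
    positivity
  have hmeas : AEStronglyMeasurable (fun t => RR m (‖G t‖ ^ 2 / L ^ 2)) μ := by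
    have h1 : Measurable fun t => ‖G t‖ ^ 2 / L ^ 2 := (hG.norm.measurable.pow_const 2).div_const _
    have h2 : Measurable (RR m) := by
      unfold RR
      refine (Real.measurable_log.neg).sub ?_
      refine Finset.measurable_sum _ fun i _ => ?_
      exact ((measurable_const.sub measurable_id).pow_const _).div_const _
    exact (h2.comp h1).aestronglyMeasurable
  rw [integral_eq_lintegral_of_nonneg_ae hnn hmeas]
  refine ENNReal.toReal_le_of_le_ofReal hB ?_
  have hpt : ∀ᵐ t ∂μ, ENNReal.ofReal (RR m (‖G t‖ ^ 2 / L ^ 2)) ≤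
      ENNReal.ofReal E + (ENNReal.ofReal α * (VV G r H s 0).indicator 1 t +
        ENNReal.ofReal β * ∑' n, (VV G r H s n).indicator 1 t) := by
    filter_upwards [hae, hmem] with t ht ht2
    have hw0 : 0 < ‖G t‖ ^ 2 / L ^ 2 := by positivity
    by_cases hlt : ‖G t‖ ^ 2 / L ^ 2 < ρ
    · refine le_trans ?_ le_add_self
      refine le_trans (ENNReal.ofReal_le_ofReal (RR_le_log m (hw1 t))) ?_
      exact layer hr hs hs1 hH hHL hLH ht2 ht hlt
    · refine le_trans ?_ le_self_add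
      exact ENNReal.ofReal_le_ofReal (RR_le_exp m hρ0 (not_lt.mp hlt) (hw1 t))
  have hVm : ∀ n, MeasurableSet (VV G r H s n) := fun n => VV_meas hG n
  have hind : ∀ n, Measurable ((VV G r H s n).indicator (1 : ℝ → ENNReal)) := fun n =>
    measurable_one.indicator (hVm n)
  have hμV : ∀ n, μ (VV G r H s n) ≤ ENNReal.ofReal (20 * r * (s / 2 ^ n)) := by
    intro n
    refine le_trans (Measure.restrict_apply_le _ _) ?_
    exact hV (s / 2 ^ n) (by positivity)
  have hlint : ∀ n, ∫⁻ t, (VV G r H s n).indicator (1 : ℝ → ENNReal) t ∂μ = μ (VV G r H s n) := by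
    intro n
    rw [lintegral_indicator_one (hVm n)]
  have hμ1 : μ Set.univ = 1 := by
    rw [hμ, Measure.restrict_apply_univ, Real.volume_Ioc]
    simp
  have hgeo : ∑' n, ENNReal.ofReal (20 * r * (s / 2 ^ n)) = ENNReal.ofReal (40 * r * s) := by
    rw [← ENNReal.ofReal_tsum_of_nonneg (fun n => by positivity)]
    · congr 1
      have h1 : ∀ n : ℕ, (20 : ℝ) * r * (s / 2 ^ n) = (20 * r * s) * (1 / 2) ^ n := by
        intro n
        rw [one_div, inv_pow]; ring
      rw [tsum_congr h1, tsum_mul_left, tsum_geometric_two]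
      ring
    · have h1 : ∀ n : ℕ, (20 : ℝ) * r * (s / 2 ^ n) = (20 * r * s) * (1 / 2) ^ n := by
        intro n
        rw [one_div, inv_pow]; ring
      simp only [h1]
      exact summable_geometric_two.mul_left _
  calc ∫⁻ t, ENNReal.ofReal (RR m (‖G t‖ ^ 2 / L ^ 2)) ∂μ
      ≤ ∫⁻ t, (ENNReal.ofReal E + (ENNReal.ofReal α * (VV G r H s 0).indicator 1 t +
        ENNReal.ofReal β * ∑' n, (VV G r H s n).indicator 1 t)) ∂μ := lintegral_mono_ae hpt
    _ = ENNReal.ofReal E + (ENNReal.ofReal α * μ (VV G r H s 0) +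
        ENNReal.ofReal β * ∑' n, μ (VV G r H s n)) := by
        rw [lintegral_add_left measurable_const, lintegral_const, hμ1, mul_one,
          lintegral_add_left ((hind 0).const_mul _), lintegral_const_mul _ (hind 0),
          lintegral_const_mul _ (Measurable.tsum hind),
          lintegral_tsum (fun n => (hind n).aemeasurable), hlint 0]
        congr 3
        exact tsum_congr fun n => hlint n
    _ ≤ ENNReal.ofReal E + (ENNReal.ofReal α * ENNReal.ofReal (20 * r * (s / 2 ^ 0)) +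
        ENNReal.ofReal β * ∑' n, ENNReal.ofReal (20 * r * (s / 2 ^ n))) := by
        gcongr with n
        · exact hμV 0
        · exact hμV n
    _ = ENNReal.ofReal (E + 20 * r * s * (α + 4 * r * Real.log 2)) := by
        rw [hgeo, ← ENNReal.ofReal_mul hα0, ← ENNReal.ofReal_mul hβ0,
          ← ENNReal.ofReal_add (by positivity) (by positivity),
          ← ENNReal.ofReal_add hE0 (by positivity)]
        congr 1
        rw [hβ]
        ring

end onesum

section compare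

lemma es_continuous {k : ℕ} (c : Fin k → ℂ) (a : Fin k → ℤ) : Continuous (es c a) := by
  unfold es
  fun_prop

lemma es_norm_le {k : ℕ} (c : Fin k → ℂ) (a : Fin k → ℤ) (t : ℝ) : ‖es c a t‖ ≤ ∑ j, ‖c j‖ := by
  unfold es
  refine (norm_sum_le _ _).trans (le_of_eq ?_)
  refine Finset.sum_congr rfl fun j _ => ?_
  have : (2 * Real.pi * Complex.I * (a j) * t : ℂ) = ((2 * Real.pi * a j * t : ℝ) : ℂ) * Complex.I := by
    push_cast; ring
  rw [norm_mul, this, Complex.norm_exp_ofReal_mul_I, mul_one]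

lemma eval_eq {k : ℕ} (c : Fin k → ℤ) (a : Fin k → ℕ) (t : ℝ) :
    ((sp c a).map (Int.castRingHom ℂ)).eval (circleMap 0 1 (2 * Real.pi * t)) =
      es (fun j => (c j : ℂ)) (fun j => (a j : ℤ)) t := by
  unfold sp es
  simp only [Polynomial.map_sum, Polynomial.map_mul, Polynomial.map_C, Polynomial.map_pow,
    Polynomial.map_X, Polynomial.eval_finsetSum, Polynomial.eval_mul, Polynomial.eval_C,
    Polynomial.eval_pow, Polynomial.eval_X, circleMap, zero_add, Complex.ofReal_one, one_mul]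
  refine Finset.sum_congr rfl fun j _ => ?_
  rw [← Complex.exp_nat_mul]
  simp only [eq_intCast]
  congr 2
  push_cast
  ring

lemma lm_eq {k : ℕ} (c : Fin k → ℤ) (a : Fin k → ℕ) :
    lm (sp c a) = ∫ t in (0:ℝ)..1,
      Real.log ‖es (fun j => (c j : ℂ)) (fun j => (a j : ℤ)) t‖ := by
  unfold lm
  rw [Polynomial.logMahlerMeasure_def, Real.circleAverage_def]
  have h := intervalIntegral.integral_comp_mul_left (a := (0 : ℝ)) (b := 1)
    (f := fun θ => Real.log ‖((sp c a).map (Int.castRingHom ℂ)).eval (circleMap 0 1 θ)‖)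
    (c := 2 * Real.pi) (by positivity)
  rw [mul_zero, mul_one] at h
  rw [← h]
  refine intervalIntegral.integral_congr fun t _ => ?_
  simp only [eval_eq]

lemma log_integrable {k : ℕ} (c : Fin k → ℤ) (a : Fin k → ℕ) :
    IntervalIntegrable (fun t => Real.log ‖es (fun j => (c j : ℂ)) (fun j => (a j : ℤ)) t‖)
      volume 0 1 := by
  have h := Polynomial.intervalIntegrable_mahlerMeasure ((sp c a).map (Int.castRingHom ℂ))
  have h2 := h.comp_mul_left (c := 2 * Real.pi)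
  rw [zero_div, div_self (by positivity)] at h2
  refine h2.congr fun t _ => ?_
  simp only [eval_eq]

end compare

end T3

open T3 in
/-- TASK T3 -/
theorem log_compare {r m : ℕ} (hr : 1 ≤ r) (hm : 1 ≤ m) (c : Fin (r + 1) → ℤ) (hc : ∀ j, c j ≠ 0)
    (a d : Fin (r + 1) → ℕ) (ha : Function.Injective a) (hd : Function.Injective d)
    (h : Sim m (fun j => (a j : ℤ)) (fun j => (d j : ℤ))) (s : ℝ) (hs : 0 < s) (hs1 : s ≤ 1) :
    |lm (sp c a) - lm (sp c d)| ≤
      Real.exp (-(m * ((s / 2) ^ (2 * r) / (r + 1) ^ 2))) / ((s / 2) ^ (2 * r) / (r + 1) ^ 2) +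
        20 * r * s * (2 * Real.log (r + 1) + 2 * r * Real.log (2 / s) + 4 * r * Real.log 2) := by
  classical
  obtain ⟨j₀, hj₀⟩ := Finite.exists_max (fun j => ‖(c j : ℂ)‖)
  set C : Fin (r + 1) → ℂ := fun j => (c j : ℂ) with hC
  set H : ℝ := ‖C j₀‖ with hH
  set L : ℝ := ∑ j, ‖C j‖ with hL
  have hHpos : 0 < H := by
    rw [hH, norm_pos_iff]
    exact Int.cast_ne_zero.mpr (hc j₀)
  have hHL : H ≤ L := Finset.single_le_sum (f := fun j => ‖C j‖) (fun j _ => norm_nonneg _)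
    (Finset.mem_univ j₀)
  have hLH : L ≤ (r + 1) * H := by
    have := Finset.sum_le_card_nsmul Finset.univ (fun j => ‖C j‖) H (fun j _ => hj₀ j)
    simpa using this
  have hLpos : 0 < L := by linarith
  have hone : ∀ (b : Fin (r + 1) → ℕ), Function.Injective b →
      0 ≤ ∫ t in (0:ℝ)..1, RR m (‖es C (fun j => (b j : ℤ)) t‖ ^ 2 / L ^ 2) ∧
      ∫ t in (0:ℝ)..1, RR m (‖es C (fun j => (b j : ℤ)) t‖ ^ 2 / L ^ 2) ≤
        Real.exp (-(m * ((s / 2) ^ (2 * r) / (r + 1) ^ 2))) / ((s / 2) ^ (2 * r) / (r + 1) ^ 2) +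
        20 * r * s * (2 * Real.log (r + 1) + 2 * r * Real.log (2 / s) + 4 * r * Real.log 2) := by
    intro b hb
    have hb' : Function.Injective (fun j => (b j : ℤ)) := fun x y hxy => hb (Nat.cast_injective hxy)
    exact one_sum m hr (es_continuous C _) hHpos hHL hLH (es_norm_le C _)
      (fun s hs => small_values C _ hb' j₀ s hs) s hs hs1
  have hpos : ∀ (b : Fin (r + 1) → ℕ), Function.Injective b →
      ∀ᵐ t ∂volume, t ∈ Set.uIoc (0 : ℝ) 1 → 0 < ‖es C (fun j => (b j : ℤ)) t‖ := by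
    intro b hb
    have hb' : Function.Injective (fun j => (b j : ℤ)) := fun x y hxy => hb (Nat.cast_injective hxy)
    have h0 := zero_null hHpos (fun s hs => small_values C _ hb' j₀ s hs)
    rw [ae_iff]
    refine measure_mono_null ?_ h0
    intro t ht
    simp only [Set.mem_ofPred_eq, not_forall, not_lt] at ht
    obtain ⟨h1, h2⟩ := ht
    rw [Set.uIoc_of_le zero_le_one] at h1
    exact ⟨⟨h1.1.le, h1.2⟩, le_antisymm h2 (norm_nonneg _)⟩
  -- the integral of the truncated logarithm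
  have hS : ∀ (b : Fin (r + 1) → ℕ), Function.Injective b →
      ∫ t in (0:ℝ)..1, RR m (‖es C (fun j => (b j : ℤ)) t‖ ^ 2 / L ^ 2) =
        2 * Real.log L - 2 * lm (sp c b) - ∑ i ∈ Finset.range m,
          (∫ t in (0:ℝ)..1, (1 - ‖es C (fun j => (b j : ℤ)) t‖ ^ 2 / L ^ 2) ^ (i + 1)) /
            ((i : ℝ) + 1) := by
    intro b hb
    have hcont := es_continuous C (fun j => (b j : ℤ))
    have hi1 : IntervalIntegrable (fun t => 2 * Real.log L -
        2 * Real.log ‖es C (fun j => (b j : ℤ)) t‖) volume 0 1 :=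
      intervalIntegrable_const.sub ((log_integrable c b).const_mul 2)
    have hi2 : ∀ i : ℕ, IntervalIntegrable (fun t =>
        (1 - ‖es C (fun j => (b j : ℤ)) t‖ ^ 2 / L ^ 2) ^ (i + 1) / ((i : ℝ) + 1)) volume 0 1 := by
      intro i
      apply Continuous.intervalIntegrable
      have := hcont.norm
      fun_prop
    have e1 : ∫ t in (0:ℝ)..1, RR m (‖es C (fun j => (b j : ℤ)) t‖ ^ 2 / L ^ 2) =
        ∫ t in (0:ℝ)..1, ((2 * Real.log L - 2 * Real.log ‖es C (fun j => (b j : ℤ)) t‖) -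
          ∑ i ∈ Finset.range m,
            (1 - ‖es C (fun j => (b j : ℤ)) t‖ ^ 2 / L ^ 2) ^ (i + 1) / ((i : ℝ) + 1)) := by
      refine intervalIntegral.integral_congr_ae ?_
      filter_upwards [hpos b hb] with t ht hmem
      have h1 := ht hmem
      unfold RR
      rw [Real.log_div (by positivity) (by positivity), Real.log_pow, Real.log_pow]
      push_cast
      ring
    have hi3 : IntervalIntegrable (fun t => ∑ i ∈ Finset.range m,
        (1 - ‖es C (fun j => (b j : ℤ)) t‖ ^ 2 / L ^ 2) ^ (i + 1) / ((i : ℝ) + 1)) volume 0 1 := by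
      have := IntervalIntegrable.sum (Finset.range m) (fun i _ => hi2 i)
      refine this.congr fun t _ => ?_
      simp
    rw [e1, intervalIntegral.integral_sub hi1 hi3, intervalIntegral.integral_sub intervalIntegrable_const
      ((log_integrable c b).const_mul 2), intervalIntegral.integral_finsetSum (fun i _ => hi2 i),
      intervalIntegral.integral_const, intervalIntegral.integral_const_mul, lm_eq]
    congr 1
    · simp
    · refine Finset.sum_congr rfl fun i _ => ?_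
      rw [intervalIntegral.integral_div]
  have hmom : ∀ i ≤ m, ∫ t in (0:ℝ)..1, (1 - ‖es C (fun j => (a j : ℤ)) t‖ ^ 2 / L ^ 2) ^ i =
      ∫ t in (0:ℝ)..1, (1 - ‖es C (fun j => (d j : ℤ)) t‖ ^ 2 / L ^ 2) ^ i := by
    intro i hi
    have hexp : ∀ (b : Fin (r + 1) → ℕ), ∫ t in (0:ℝ)..1,
        (1 - ‖es C (fun j => (b j : ℤ)) t‖ ^ 2 / L ^ 2) ^ i =
        ∑ l ∈ Finset.range (i + 1), ((-1) ^ l * (L ^ (2 * l))⁻¹ * (i.choose l : ℝ)) *
          ∫ t in (0:ℝ)..1, ‖es C (fun j => (b j : ℤ)) t‖ ^ (2 * l) := by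
      intro b
      have hcont := (es_continuous C (fun j => (b j : ℤ))).norm
      have e2 : ∀ t : ℝ, (1 - ‖es C (fun j => (b j : ℤ)) t‖ ^ 2 / L ^ 2) ^ i =
          ∑ l ∈ Finset.range (i + 1), ((-1) ^ l * (L ^ (2 * l))⁻¹ * (i.choose l : ℝ)) *
            ‖es C (fun j => (b j : ℤ)) t‖ ^ (2 * l) := by
        intro t
        rw [show (1 : ℝ) - ‖es C (fun j => (b j : ℤ)) t‖ ^ 2 / L ^ 2 =
          -(‖es C (fun j => (b j : ℤ)) t‖ ^ 2 / L ^ 2) + 1 by ring, add_pow]
        refine Finset.sum_congr rfl fun l _ => ?_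
        rw [one_pow, mul_one, neg_pow, div_pow, pow_mul, pow_mul]
        field_simp
      simp only [e2]
      rw [intervalIntegral.integral_finsetSum]
      · refine Finset.sum_congr rfl fun l _ => ?_
        rw [intervalIntegral.integral_const_mul]
      · intro l _
        apply Continuous.intervalIntegrable
        fun_prop
    rw [hexp a, hexp d]
    refine Finset.sum_congr rfl fun l hl => ?_
    rw [moment_eq C _ _ h (by have := Finset.mem_range.mp hl; omega)]
  have hA := hS a ha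
  have hD := hS d hd
  have hsumeq : ∑ i ∈ Finset.range m,
      (∫ t in (0:ℝ)..1, (1 - ‖es C (fun j => (a j : ℤ)) t‖ ^ 2 / L ^ 2) ^ (i + 1)) /
        ((i : ℝ) + 1) = ∑ i ∈ Finset.range m,
      (∫ t in (0:ℝ)..1, (1 - ‖es C (fun j => (d j : ℤ)) t‖ ^ 2 / L ^ 2) ^ (i + 1)) /
        ((i : ℝ) + 1) := by
    refine Finset.sum_congr rfl fun i hi => ?_
    rw [hmom (i + 1) (by have := Finset.mem_range.mp hi; omega)]
  obtain ⟨ha0, ha1⟩ := hone a ha
  obtain ⟨hd0, hd1⟩ := hone d hd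
  rw [hA] at ha0 ha1
  rw [hD] at hd0 hd1
  rw [hsumeq] at ha0 ha1
  rw [abs_le]
  constructor <;> linarith

end Pool.Agent.H338R2.AS
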