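import Pool.Agent.H2.L.R_seed8.H338R2.AS.Defs

/-!
# T4: a small representative by Dirichlet's theorem (helper995)
-/

set_option autoImplicit false

namespace Pool.Agent.H338R2.AS

private lemma T4_step {k m D : ℕ} (hm : 1 ≤ m) (d : Fin k → ℕ) (hd : ∀ j, d j ≤ D)
    (hD : 3 * ((4 * m + 1) ^ k + 1) * (2 * m + 1) ^ k < D) :
    ∃ x : Fin k → ℕ, Sim m (fun j => (x j : ℤ)) (fun j => (d j : ℤ)) ∧ ∀ j, x j < D := by
  classical
  set Q := 2 * m + 1 with hQ
  have hDpos : 0 < D := by omega
  have hQpos : 0 < Q := by omega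
  have hQ3 : 3 ≤ Q := by omega
  -- Dirichlet
  let f : Fin (Q ^ k + 1) → (Fin k → Fin Q) := fun q j => ⟨(Q * ((q.val * d j) % D)) / D, by
    rw [Nat.div_lt_iff_lt_mul hDpos]
    exact Nat.mul_lt_mul_of_pos_left (Nat.mod_lt _ hDpos) hQpos⟩
  obtain ⟨q1, q2, hne, hf⟩ := Fintype.exists_ne_map_eq_of_card_lt f (by simp)
  wlog hlt : q1 < q2 generalizing q1 q2
  · exact this q2 q1 hne.symm hf.symm (lt_of_le_of_ne (not_lt.mp hlt) hne.symm)
  have hlt' : q1.val < q2.val := hlt
  have hq2 : q2.val ≤ Q ^ k := by have := q2.isLt; omega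
  set A : Fin k → ℤ := fun j => (((q2.val * d j) / D : ℕ) : ℤ) - (((q1.val * d j) / D : ℕ) : ℤ)
    with hA
  set e : Fin k → ℤ := fun j => (((q2.val * d j) % D : ℕ) : ℤ) - (((q1.val * d j) % D : ℕ) : ℤ)
    with he
  have hrel : ∀ j, ((q2.val : ℤ) - q1.val) * (d j : ℤ) = D * A j + e j := by
    intro j
    have h1 := Nat.div_add_mod (q1.val * d j) D
    have h2 := Nat.div_add_mod (q2.val * d j) D
    have h1' : (D : ℤ) * (((q1.val * d j) / D : ℕ) : ℤ) + (((q1.val * d j) % D : ℕ) : ℤ)
        = q1.val * d j := by exact_mod_cast h1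
    have h2' : (D : ℤ) * (((q2.val * d j) / D : ℕ) : ℤ) + (((q2.val * d j) % D : ℕ) : ℤ)
        = q2.val * d j := by exact_mod_cast h2
    simp only [hA, he]
    linear_combination h1' - h2'
  have heabs : ∀ j, (Q : ℤ) * |e j| < D := by
    intro j
    have hfj : (Q * ((q1.val * d j) % D)) / D = (Q * ((q2.val * d j) % D)) / D := by
      have := congrFun hf j
      simpa [f] using this
    set r1 := (q1.val * d j) % D
    set r2 := (q2.val * d j) % D
    have ha := Nat.div_add_mod (Q * r1) D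
    have hb := Nat.div_add_mod (Q * r2) D
    have ha' := Nat.mod_lt (Q * r1) hDpos
    have hb' := Nat.mod_lt (Q * r2) hDpos
    have ha2 : (D : ℤ) * (((Q * r1) / D : ℕ) : ℤ) + (((Q * r1) % D : ℕ) : ℤ) = Q * r1 := by
      exact_mod_cast ha
    have hb2 : (D : ℤ) * (((Q * r2) / D : ℕ) : ℤ) + (((Q * r2) % D : ℕ) : ℤ) = Q * r2 := by
      exact_mod_cast hb
    have ha3 : (((Q * r1) % D : ℕ) : ℤ) < D := by exact_mod_cast ha'
    have hb3 : (((Q * r2) % D : ℕ) : ℤ) < D := by exact_mod_cast hb'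
    have ha4 : (0 : ℤ) ≤ (((Q * r1) % D : ℕ) : ℤ) := by positivity
    have hb4 : (0 : ℤ) ≤ (((Q * r2) % D : ℕ) : ℤ) := by positivity
    have hQabs : (Q : ℤ) * |e j| = |(Q : ℤ) * e j| := by
      rw [abs_mul, abs_of_nonneg (by positivity : (0 : ℤ) ≤ Q)]
    rw [hQabs]
    have hqe : (Q : ℤ) * e j = (((Q * r2) % D : ℕ) : ℤ) - (((Q * r1) % D : ℕ) : ℤ) := by
      have hej : e j = (r2 : ℤ) - r1 := rfl
      rw [hej]
      rw [hfj] at ha2
      linear_combination ha2 - hb2
    rw [hqe, abs_lt]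
    constructor <;> linarith
  have hA0 : ∀ j, 0 ≤ A j := by
    intro j
    simp only [hA]
    have : (q1.val * d j) / D ≤ (q2.val * d j) / D :=
      Nat.div_le_div_right (Nat.mul_le_mul_right _ hlt'.le)
    have h' : (((q1.val * d j) / D : ℕ) : ℤ) ≤ (((q2.val * d j) / D : ℕ) : ℤ) := by
      exact_mod_cast this
    linarith
  have hAQ : ∀ j, A j ≤ (Q : ℤ) ^ k := by
    intro j
    simp only [hA]
    have h1 : (q2.val * d j) / D ≤ q2.val := by
      calc (q2.val * d j) / D ≤ (q2.val * D) / D :=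
            Nat.div_le_div_right (Nat.mul_le_mul_left _ (hd j))
        _ = q2.val := Nat.mul_div_cancel _ hDpos
    have h2 : (((q2.val * d j) / D : ℕ) : ℤ) ≤ (Q : ℤ) ^ k := by
      exact_mod_cast h1.trans hq2
    have h3 : (0 : ℤ) ≤ (((q1.val * d j) / D : ℕ) : ℤ) := by positivity
    linarith
  -- key facts on relations
  have hkey : ∀ u : Fin k → ℤ, ∑ j, |u j| ≤ 2 * m →
      (∑ j, u j * (d j : ℤ) = 0 ↔ (∑ j, u j * A j = 0 ∧ ∑ j, u j * e j = 0)) := by
    intro u hu
    have hsum : ((q2.val : ℤ) - q1.val) * ∑ j, u j * (d j : ℤ)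
        = D * ∑ j, u j * A j + ∑ j, u j * e j := by
      rw [Finset.mul_sum, Finset.mul_sum, ← Finset.sum_add_distrib]
      refine Finset.sum_congr rfl fun j _ => ?_
      have := hrel j
      linear_combination (u j) * this
    constructor
    · intro h0
      rw [h0, mul_zero] at hsum
      have hbound : (Q : ℤ) * |∑ j, u j * e j| < Q * D := by
        calc (Q : ℤ) * |∑ j, u j * e j| ≤ Q * ∑ j, |u j * e j| := by
              gcongr
              exact Finset.abs_sum_le_sum_abs _ _
          _ = ∑ j, |u j| * (Q * |e j|) := by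
              rw [Finset.mul_sum]
              refine Finset.sum_congr rfl fun j _ => ?_
              rw [abs_mul]; ring
          _ ≤ ∑ j, |u j| * (D : ℤ) := by
              refine Finset.sum_le_sum fun j _ => ?_
              exact mul_le_mul_of_nonneg_left (heabs j).le (abs_nonneg _)
          _ = (∑ j, |u j|) * D := by rw [Finset.sum_mul]
          _ ≤ 2 * m * D := by gcongr
          _ < Q * D := by
              have : (0 : ℤ) < D := by exact_mod_cast hDpos
              have hQ' : (Q : ℤ) = 2 * m + 1 := by simp [hQ]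
              rw [hQ']
              linarith
      have hlt2 : |∑ j, u j * e j| < D := by
        have hQ0 : (0 : ℤ) < Q := by exact_mod_cast hQpos
        exact lt_of_mul_lt_mul_left hbound hQ0.le
      have hA00 : ∑ j, u j * A j = 0 := by
        by_contra hne0
        have h1 : (1 : ℤ) ≤ |∑ j, u j * A j| := Int.one_le_abs hne0
        have h2 : |∑ j, u j * e j| = D * |∑ j, u j * A j| := by
          have : ∑ j, u j * e j = -(D * ∑ j, u j * A j) := by linarith
          rw [this, abs_neg, abs_mul, abs_of_nonneg (by positivity : (0 : ℤ) ≤ D)]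
        have hD0 : (0 : ℤ) < D := by exact_mod_cast hDpos
        nlinarith
      refine ⟨hA00, ?_⟩
      rw [hA00] at hsum
      linarith
    · rintro ⟨h1, h2⟩
      rw [h1, h2] at hsum
      have hq : ((q2.val : ℤ) - q1.val) ≠ 0 := by
        have : (q1.val : ℤ) < q2.val := by exact_mod_cast hlt'
        intro h0
        linarith
      have : ((q2.val : ℤ) - q1.val) * ∑ j, u j * (d j : ℤ) = 0 := by rw [hsum]; ring
      rcases mul_eq_zero.mp this with h | h
      · exact absurd h hq
      · exact h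
  -- choice of N
  obtain ⟨N, hN1, hN2, hN⟩ : ∃ N : ℕ, 1 ≤ N ∧ N ≤ (4 * m + 1) ^ k + 1 ∧
      ∀ u : Fin k → ℤ, (∀ j, |u j| ≤ 2 * m) → ∑ j, u j * A j ≠ 0 →
        (N : ℤ) * ∑ j, u j * A j + ∑ j, u j * e j ≠ 0 := by
    by_contra hcon
    push Not at hcon
    have hcon' : ∀ N ∈ Finset.Icc 1 ((4 * m + 1) ^ k + 1), ∃ u : Fin k → ℤ,
        (∀ j, |u j| ≤ 2 * m) ∧ ∑ j, u j * A j ≠ 0 ∧
        (N : ℤ) * ∑ j, u j * A j + ∑ j, u j * e j = 0 := by
      intro N hN
      rw [Finset.mem_Icc] at hN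
      exact hcon N hN.1 hN.2
    choose! g hg1 hg2 hg3 using hcon'
    have hcard := Finset.card_le_card_of_injOn (s := Finset.Icc 1 ((4 * m + 1) ^ k + 1))
      (t := Fintype.piFinset fun _ : Fin k => Finset.Icc (-(2 * m : ℤ)) (2 * m)) g
      (by
        intro N hN
        simp only [Finset.mem_coe, Fintype.mem_piFinset, Finset.mem_Icc]
        intro j
        exact abs_le.mp (hg1 N hN j))
      (by
        intro N hN N' hN' hEq
        have h1 := hg3 N hN
        have h2 := hg3 N' hN'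
        rw [← hEq] at h2
        have h3 : ((N : ℤ) - N') * ∑ j, g N j * A j = 0 := by linear_combination h1 - h2
        rcases mul_eq_zero.mp h3 with h | h
        · have : (N : ℤ) = N' := by linarith
          exact_mod_cast this
        · exact absurd h (hg2 N hN))
    rw [Nat.card_Icc, Fintype.card_piFinset] at hcard
    have hc : (Finset.Icc (-(2 * m : ℤ)) (2 * m)).card = 4 * m + 1 := by
      rw [Int.card_Icc]
      have : (2 * (m : ℤ) + 1 - -(2 * m)) = ((4 * m + 1 : ℕ) : ℤ) := by push_cast; ring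
      rw [this, Int.toNat_natCast]
    simp only [hc, Finset.prod_const, Finset.card_univ, Fintype.card_fin] at hcard
    omega
  -- the new exponents
  set X : Fin k → ℤ := fun j => N * A j + e j with hX
  rcases Nat.eq_zero_or_pos k with hk | hk
  · subst hk
    exact ⟨d, fun u _ _ => Iff.rfl, fun j => j.elim0⟩
  have : Nonempty (Fin k) := ⟨⟨0, hk⟩⟩
  obtain ⟨j0, _, hj0⟩ := Finset.exists_min_image (Finset.univ : Finset (Fin k)) X
    Finset.univ_nonempty
  have hj0' : ∀ j, X j0 ≤ X j := fun j => hj0 j (Finset.mem_univ _)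
  refine ⟨fun j => (X j - X j0).toNat, ?_, ?_⟩
  · intro u hu0 hu
    have hcast : ∀ j, (((X j - X j0).toNat : ℕ) : ℤ) = X j - X j0 := fun j =>
      Int.toNat_of_nonneg (by linarith [hj0' j])
    simp only [hcast]
    have hsumX : ∑ j, u j * (X j - X j0) = (N : ℤ) * ∑ j, u j * A j + ∑ j, u j * e j := by
      have h1 : ∑ j, u j * (X j - X j0) = ∑ j, u j * X j - (∑ j, u j) * X j0 := by
        rw [Finset.sum_mul, ← Finset.sum_sub_distrib]
        exact Finset.sum_congr rfl fun j _ => by ring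
      rw [h1, hu0, zero_mul, sub_zero, Finset.mul_sum, ← Finset.sum_add_distrib]
      exact Finset.sum_congr rfl fun j _ => by simp only [hX]; ring
    rw [hsumX, hkey u hu]
    constructor
    · intro h0
      have hentries : ∀ j, |u j| ≤ 2 * m := fun j =>
        (Finset.single_le_sum (f := fun j => |u j|) (fun i _ => abs_nonneg _)
          (Finset.mem_univ j)).trans hu
      by_cases hA1 : ∑ j, u j * A j = 0
      · refine ⟨hA1, ?_⟩
        rw [hA1] at h0
        linarith
      · exact absurd h0 (hN u hentries hA1)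
    · rintro ⟨h1, h2⟩
      rw [h1, h2]; ring
  · intro j
    have hcast : (((X j - X j0).toNat : ℕ) : ℤ) = X j - X j0 :=
      Int.toNat_of_nonneg (by linarith [hj0' j])
    have hgoal : X j - X j0 < D := by
      have h1 : X j - X j0 = N * (A j - A j0) + e j - e j0 := by simp only [hX]; ring
      have h2 : (N : ℤ) * (A j - A j0) ≤ N * (Q : ℤ) ^ k := by
        have : A j - A j0 ≤ (Q : ℤ) ^ k := by linarith [hAQ j, hA0 j0]
        exact mul_le_mul_of_nonneg_left this (by positivity)
      have h3 : (Q : ℤ) * (e j - e j0) < 2 * D := by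
        have ha := heabs j
        have hb := heabs j0
        have hQ0 : (0 : ℤ) < Q := by exact_mod_cast hQpos
        have hc1 : (Q : ℤ) * e j ≤ Q * |e j| := mul_le_mul_of_nonneg_left (le_abs_self _) hQ0.le
        have hc2 : (Q : ℤ) * (-e j0) ≤ Q * |e j0| :=
          mul_le_mul_of_nonneg_left (neg_le_abs _) hQ0.le
        linarith
      have h4 : 3 * ((N : ℤ) * (Q : ℤ) ^ k) < D := by
        have h5 : 3 * (N * Q ^ k) ≤ 3 * ((4 * m + 1) ^ k + 1) * Q ^ k := by
          rw [mul_assoc]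
          gcongr
        have h6 : 3 * (N * Q ^ k) < D := lt_of_le_of_lt h5 hD
        exact_mod_cast h6
      have hQ0 : (3 : ℤ) ≤ Q := by exact_mod_cast hQ3
      have hD0 : (0 : ℤ) < D := by exact_mod_cast hDpos
      have h7 : (Q : ℤ) * (X j - X j0) < Q * D := by
        rw [h1]
        nlinarith
      exact lt_of_mul_lt_mul_left h7 (by linarith)
    have : (((X j - X j0).toNat : ℕ) : ℤ) < D := by rw [hcast]; exact hgoal
    exact_mod_cast this

theorem small_rep {k m : ℕ} (hm : 1 ≤ m) (d : Fin k → ℕ) :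
    ∃ a : Fin k → ℕ, Sim m (fun j => (a j : ℤ)) (fun j => (d j : ℤ)) ∧
      ∀ j, a j ≤ 3 * ((4 * m + 1) ^ k + 1) * (2 * m + 1) ^ k := by
  have main : ∀ D : ℕ, ∀ d : Fin k → ℕ, (∀ j, d j ≤ D) →
      ∃ a : Fin k → ℕ, Sim m (fun j => (a j : ℤ)) (fun j => (d j : ℤ)) ∧
        ∀ j, a j ≤ 3 * ((4 * m + 1) ^ k + 1) * (2 * m + 1) ^ k := by
    intro D
    induction D with
    | zero =>
      intro d hd
      exact ⟨d, fun u _ _ => Iff.rfl, fun j => (hd j).trans (Nat.zero_le _)⟩
    | succ D ih =>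
      intro d hd
      by_cases hD : D + 1 ≤ 3 * ((4 * m + 1) ^ k + 1) * (2 * m + 1) ^ k
      · exact ⟨d, fun u _ _ => Iff.rfl, fun j => (hd j).trans hD⟩
      · push Not at hD
        obtain ⟨x, hx, hxD⟩ := T4_step hm d hd hD
        obtain ⟨a, ha, hab⟩ := ih x (fun j => Nat.lt_succ_iff.mp (hxD j))
        exact ⟨a, fun u h1 h2 => (ha u h1 h2).trans (hx u h1 h2), hab⟩
  exact main (∑ j, d j) d (fun j => Finset.single_le_sum (f := d) (fun i _ => Nat.zero_le _)
    (Finset.mem_univ j))

end Pool.Agent.H338R2.AS
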