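import Mathlib
import Pool.Agent.H2.L.R_seed8.H338R2.AS.Defs

/-!
# Numerical estimates and the chain argument
-/

set_option autoImplicit false

open Polynomial Filter Topology

namespace Pool.Agent.H338R2.AS

/-- abstract chain argument -/
lemma t6_chain (η gap : ℕ → ℝ) (n0 : ℕ) (h : ∀ n, n0 ≤ n → η n + η (n + 1) < gap (n + 1))
    (hη : Tendsto η atTop (𝓝 0)) (x : ℝ) (hx : ∀ n, n0 ≤ n → x ≤ η n ∨ gap n - η n ≤ x)
    (hx0 : x < gap n0 - η n0) : x ≤ 0 := by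
  have key : ∀ n, n0 ≤ n → x ≤ η n := by
    intro n hn
    induction n, hn using Nat.le_induction with
    | base =>
      rcases hx n0 le_rfl with h1 | h1
      · exact h1
      · linarith
    | succ n hn ih =>
      rcases hx (n + 1) (by omega) with h1 | h1
      · exact h1
      · have := h n hn
        linarith
  refine ge_of_tendsto hη ?_
  filter_upwards [eventually_ge_atTop n0] with n hn using key n hn

/-- the length of relations used at stage `n` -/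
def mm (r n : ℕ) : ℕ := 4 * (r + 1) ^ 3 * (n + 1) * 4 ^ (r * (n + 1))

lemma one_le_mm (r n : ℕ) : 1 ≤ mm r n := by
  have : 0 < mm r n := by unfold mm; positivity
  exact this

/-- estimate of the error term -/
lemma t6_eta (r n : ℕ) (hr : 1 ≤ r) :
    Real.exp (-((mm r n : ℕ) * ((((1:ℝ) / 2 ^ n) / 2) ^ (2 * r) / (r + 1) ^ 2))) /
        ((((1:ℝ) / 2 ^ n) / 2) ^ (2 * r) / (r + 1) ^ 2) +
        20 * r * ((1:ℝ) / 2 ^ n) * (2 * Real.log (r + 1) + 2 * r * Real.log (2 / ((1:ℝ) / 2 ^ n))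
          + 4 * r * Real.log 2) ≤ 200 * (r + 1 : ℝ) ^ 2 * (n + 1) / 2 ^ n := by
  have hr1 : (1:ℝ) ≤ r := by exact_mod_cast hr
  have hlog2 : 0 < Real.log 2 := Real.log_pos (by norm_num)
  have hlog2' : Real.log 2 ≤ 1 := by
    have := Real.log_two_lt_d9; linarith
  have hρ : (((1:ℝ) / 2 ^ n) / 2) ^ (2 * r) / (r + 1) ^ 2 =
      1 / (4 ^ (r * (n + 1)) * (r + 1) ^ 2) := by
    have h1 : ((1:ℝ) / 2 ^ n) / 2 = 1 / 2 ^ (n + 1) := by rw [pow_succ]; field_simp
    rw [h1, div_pow, one_pow, ← pow_mul, div_div]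
    congr 2
    rw [show (4:ℝ) = 2 ^ 2 by norm_num, ← pow_mul]
    congr 1; ring
  rw [hρ]
  have h4 : (0:ℝ) < 4 ^ (r * (n + 1)) := by positivity
  have hm : ((mm r n : ℕ) : ℝ) * (1 / (4 ^ (r * (n + 1)) * (r + 1) ^ 2)) = 4 * (r + 1) * (n + 1) := by
    unfold mm
    push_cast
    field_simp
  rw [hm]
  -- first term
  have hfirst : Real.exp (-(4 * (r + 1) * (n + 1) : ℝ)) / (1 / (4 ^ (r * (n + 1)) * (r + 1) ^ 2)) ≤
      1 / 2 ^ n := by
    rw [Real.exp_neg, div_div_eq_mul_div, div_one, ← one_div, div_mul_eq_mul_div, one_mul,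
      div_le_div_iff₀ (Real.exp_pos _) (by positivity), one_mul]
    have h1 : (2:ℝ) ^ (4 * (r + 1) * (n + 1)) ≤ Real.exp (4 * (r + 1) * (n + 1) : ℝ) := by
      have h2 : (4 * (r + 1) * (n + 1) : ℝ) = ((4 * (r + 1) * (n + 1) : ℕ) : ℝ) * 1 := by
        push_cast; ring
      rw [h2, Real.exp_nat_mul]
      have h3 : (2:ℝ) ≤ Real.exp 1 := by
        have := Real.add_one_le_exp (1:ℝ)
        linarith
      gcongr
    refine le_trans ?_ h1
    have h5 : ((r:ℝ) + 1) ≤ 2 ^ r := by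
      have : r + 1 ≤ 2 ^ r := Nat.lt_pow_self (by norm_num)
      exact_mod_cast this
    calc (4:ℝ) ^ (r * (n + 1)) * (r + 1) ^ 2 * 2 ^ n
        ≤ 4 ^ (r * (n + 1)) * (2 ^ r) ^ 2 * 2 ^ n := by gcongr
      _ = 2 ^ (2 * (r * (n + 1)) + r * 2 + n) := by
        rw [show (4:ℝ) = 2 ^ 2 by norm_num, ← pow_mul, ← pow_mul, ← pow_add, ← pow_add]
      _ ≤ 2 ^ (4 * (r + 1) * (n + 1)) := by
        apply pow_le_pow_right₀ (by norm_num)
        nlinarith
  have hl1 : Real.log (r + 1) ≤ r := by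
    have := Real.log_le_sub_one_of_pos (show (0:ℝ) < r + 1 by positivity)
    linarith
  have hl2 : Real.log (2 / ((1:ℝ) / 2 ^ n)) ≤ n + 1 := by
    have h1 : 2 / ((1:ℝ) / 2 ^ n) = 2 ^ (n + 1) := by rw [pow_succ]; field_simp
    rw [h1, Real.log_pow]
    push_cast
    nlinarith [(Nat.cast_nonneg n : (0:ℝ) ≤ n)]
  have hn0 : (0:ℝ) ≤ n := Nat.cast_nonneg n
  have hsecond : 20 * r * ((1:ℝ) / 2 ^ n) * (2 * Real.log (r + 1) +
      2 * r * Real.log (2 / ((1:ℝ) / 2 ^ n)) + 4 * r * Real.log 2) ≤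
      20 * r * ((1:ℝ) / 2 ^ n) * (8 * r * (n + 1)) := by
    apply mul_le_mul_of_nonneg_left _ (by positivity)
    have h1 : (r:ℝ) * Real.log (2 / ((1:ℝ) / 2 ^ n)) ≤ r * (n + 1) := by gcongr
    have h2 : (r:ℝ) * Real.log 2 ≤ r * 1 := by gcongr
    nlinarith
  calc _ ≤ 1 / 2 ^ n + 20 * r * ((1:ℝ) / 2 ^ n) * (8 * r * (n + 1)) := add_le_add hfirst hsecond
    _ = (1 + 160 * r ^ 2 * (n + 1)) / 2 ^ n := by ring
    _ ≤ 200 * (r + 1 : ℝ) ^ 2 * (n + 1) / 2 ^ n := by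
      gcongr
      nlinarith [mul_nonneg hn0 (sq_nonneg (r:ℝ)), mul_nonneg hn0 (by linarith : (0:ℝ) ≤ r)]

/-- estimate of the degree of the small representative -/
lemma t6_deg (r n : ℕ) :
    Real.log (2 * ((3 * ((4 * mm r n + 1) ^ (r + 1) + 1) * (2 * mm r n + 1) ^ (r + 1) : ℕ) : ℝ)) ≤
      26 * (r + 1 : ℝ) ^ 2 * (n + 1) := by
  set k := r + 1 with hk
  set m := mm r n with hm
  have hm1 : 1 ≤ m := one_le_mm r n
  have hkm : m ≤ 2 ^ (2 + 3 * k + n + 2 * k * (n + 1)) := by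
    rw [hm, mm]
    have h1 : r + 1 ≤ 2 ^ k := (Nat.lt_pow_self (by norm_num)).le
    have h2 : n + 1 ≤ 2 ^ n := Nat.lt_pow_self (by norm_num)
    calc 4 * (r + 1) ^ 3 * (n + 1) * 4 ^ (r * (n + 1))
        ≤ 4 * (2 ^ k) ^ 3 * 2 ^ n * 4 ^ (k * (n + 1)) := by
          gcongr
          · norm_num
          · omega
      _ = 2 ^ (2 + 3 * k + n + 2 * k * (n + 1)) := by
        rw [show (4:ℕ) = 2 ^ 2 by norm_num, ← pow_mul, ← pow_mul, ← pow_add, ← pow_add, ← pow_add]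
        congr 1; ring
  have hA : 2 * (3 * ((4 * m + 1) ^ k + 1) * (2 * m + 1) ^ k) ≤
      2 ^ 4 * 2 ^ (2 * k * (5 + 3 * k + n + 2 * k * (n + 1))) := by
    have h1 : 4 * m + 1 ≤ 2 ^ (5 + 3 * k + n + 2 * k * (n + 1)) := by
      calc 4 * m + 1 ≤ 8 * m := by omega
        _ ≤ 2 ^ 3 * 2 ^ (2 + 3 * k + n + 2 * k * (n + 1)) := by
          norm_num at hkm ⊢
          omega
        _ = 2 ^ (5 + 3 * k + n + 2 * k * (n + 1)) := by rw [← pow_add]; congr 1; ring
    have h2 : 2 * m + 1 ≤ 2 ^ (5 + 3 * k + n + 2 * k * (n + 1)) := by omega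
    set E := 5 + 3 * k + n + 2 * k * (n + 1) with hE
    have h3 : (4 * m + 1) ^ k + 1 ≤ 2 * (2 ^ E) ^ k := by
      have h4 : (4 * m + 1) ^ k ≤ (2 ^ E) ^ k := Nat.pow_le_pow_left h1 k
      have h5 : 1 ≤ (2 ^ E) ^ k := Nat.one_le_pow _ _ (by positivity)
      omega
    calc 2 * (3 * ((4 * m + 1) ^ k + 1) * (2 * m + 1) ^ k)
        ≤ 2 * (3 * (2 * (2 ^ E) ^ k) * (2 ^ E) ^ k) := by gcongr
      _ = 12 * 2 ^ (2 * k * E) := by rw [← pow_mul]; rw [show 2 * k * E = E * k + E * k by ring, pow_add]; ring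
      _ ≤ 2 ^ 4 * 2 ^ (2 * k * E) := by gcongr; norm_num
  have hpos : (0:ℝ) < 2 * ((3 * ((4 * m + 1) ^ k + 1) * (2 * m + 1) ^ k : ℕ) : ℝ) := by positivity
  have hA' : 2 * ((3 * ((4 * m + 1) ^ k + 1) * (2 * m + 1) ^ k : ℕ) : ℝ) ≤
      (2:ℝ) ^ (4 + 2 * k * (5 + 3 * k + n + 2 * k * (n + 1))) := by
    rw [pow_add (2:ℝ) 4]
    exact_mod_cast hA
  have hk1 : 1 ≤ k := by omega
  clear_value k
  calc Real.log (2 * ((3 * ((4 * m + 1) ^ k + 1) * (2 * m + 1) ^ k : ℕ) : ℝ))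
      ≤ Real.log ((2:ℝ) ^ (4 + 2 * k * (5 + 3 * k + n + 2 * k * (n + 1)))) :=
        Real.log_le_log hpos hA'
    _ = (4 + 2 * k * (5 + 3 * k + n + 2 * k * (n + 1)) : ℕ) * Real.log 2 := by
        rw [Real.log_pow]
    _ ≤ (4 + 2 * k * (5 + 3 * k + n + 2 * k * (n + 1)) : ℕ) * 1 := by
        have := Real.log_two_lt_d9
        gcongr
        linarith
    _ ≤ ((26 * k ^ 2 * (n + 1) : ℕ) : ℝ) := by
        rw [mul_one]
        have : 4 + 2 * k * (5 + 3 * k + n + 2 * k * (n + 1)) ≤ 26 * k ^ 2 * (n + 1) := by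
          clear hA hA' hkm hpos hm hm1 hk
          obtain ⟨e, rfl⟩ := Nat.exists_eq_add_of_le hk1
          ring_nf
          nlinarith [Nat.zero_le (e * n), Nat.zero_le (e ^ 2 * n), Nat.zero_le e, Nat.zero_le n, Nat.zero_le (e^2)]
        exact_mod_cast this
    _ = 26 * (r + 1 : ℝ) ^ 2 * (n + 1) := by rw [hk]; push_cast; ring

/-- exponential versus polynomial -/
lemma t6_exp (c : ℝ) (hc : 0 < c) : ∃ B : ℝ, 0 < B ∧ ∀ k n : ℕ, 2 ≤ k →
    B * Real.log (2 * k) ≤ n → 7030400 * (k:ℝ) ^ 8 * (n + 2) ^ 4 < c * 2 ^ n := by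
  have hlog2 : 0 < Real.log 2 := Real.log_pos (by norm_num)
  have hl := Real.log_two_gt_d9
  set E : ℝ := max 0 (Real.log (7030400 * 3400 / c) / Real.log 2) with hE
  have hE0 : 0 ≤ E := le_max_left _ _
  refine ⟨2 * (8 + E) / Real.log 2, by positivity, ?_⟩
  intro k n hk hn
  have hk2 : (2:ℝ) ≤ k := by exact_mod_cast hk
  set x : ℝ := n * Real.log 2 / 2 with hx
  have hx1 : (8 + E) * Real.log (2 * k) ≤ x := by
    have : 2 * (8 + E) / Real.log 2 * Real.log (2 * k) * (Real.log 2 / 2) ≤ n * (Real.log 2 / 2) := by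
      gcongr
    calc (8 + E) * Real.log (2 * k) = 2 * (8 + E) / Real.log 2 * Real.log (2 * k) * (Real.log 2 / 2) := by
          field_simp
      _ ≤ n * (Real.log 2 / 2) := this
      _ = x := by rw [hx]; ring
  have h2n : (2:ℝ) ^ n = Real.exp x * Real.exp x := by
    rw [← Real.exp_add, hx, show (n:ℝ) * Real.log 2 / 2 + n * Real.log 2 / 2 = n * Real.log 2 by ring,
      Real.exp_nat_mul, Real.exp_log (by norm_num)]
  -- polynomial bound
  have hpoly : ((n:ℝ) + 2) ^ 4 ≤ 3400 * Real.exp x := by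
    have h1 := Real.pow_div_factorial_le_exp (x := ((n:ℝ) + 2) * (Real.log 2 / 2)) (by positivity) 4
    have h2 : Real.exp (((n:ℝ) + 2) * (Real.log 2 / 2)) = 2 * Real.exp x := by
      rw [show ((n:ℝ) + 2) * (Real.log 2 / 2) = Real.log 2 + x by rw [hx]; ring, Real.exp_add,
        Real.exp_log (by norm_num)]
    rw [h2] at h1
    have h3 : ((Nat.factorial 4 : ℕ) : ℝ) = 24 := by norm_num [Nat.factorial]
    rw [h3, div_le_iff₀ (by norm_num), mul_pow] at h1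
    have h4 : (0.01442:ℝ) ≤ (Real.log 2 / 2) ^ 4 := by
      have h5 : (0.346573590:ℝ) ≤ Real.log 2 / 2 := by linarith
      calc (0.01442:ℝ) ≤ 0.346573590 ^ 4 := by norm_num
        _ ≤ _ := by gcongr
    have h6 : ((n:ℝ) + 2) ^ 4 * 0.01442 ≤ 2 * Real.exp x * 24 := le_trans (by gcongr) h1
    have := Real.exp_pos x
    nlinarith
  -- exponential bound
  have hexp : 7030400 * 3400 * (k:ℝ) ^ 8 < c * Real.exp x := by
    have h1 : Real.exp ((8 + E) * Real.log (2 * k)) ≤ Real.exp x := Real.exp_le_exp.mpr hx1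
    have h2 : Real.exp ((8 + E) * Real.log (2 * k)) =
        (2 * k : ℝ) ^ 8 * Real.exp (E * Real.log (2 * k)) := by
      rw [add_mul, Real.exp_add]
      congr 1
      rw [show (8:ℝ) * Real.log (2 * k) = (8:ℕ) * Real.log (2 * k) by norm_num, Real.exp_nat_mul,
        Real.exp_log (by positivity)]
    have h3 : 7030400 * 3400 / c ≤ Real.exp (E * Real.log (2 * k)) := by
      have h4 : Real.log (7030400 * 3400 / c) ≤ E * Real.log (2 * k) := by
        calc Real.log (7030400 * 3400 / c) = Real.log (7030400 * 3400 / c) / Real.log 2 * Real.log 2 := by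
              field_simp
          _ ≤ E * Real.log 2 := by gcongr; exact le_max_right _ _
          _ ≤ E * Real.log (2 * k) := by
              apply mul_le_mul_of_nonneg_left _ hE0
              exact Real.log_le_log (by norm_num) (by linarith)
      calc 7030400 * 3400 / c = Real.exp (Real.log (7030400 * 3400 / c)) := by
            rw [Real.exp_log (by positivity)]
        _ ≤ _ := Real.exp_le_exp.mpr h4
    rw [div_le_iff₀ hc] at h3
    have hk8 : (0:ℝ) < k ^ 8 := by positivity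
    have h5 : (2 * k : ℝ) ^ 8 = 256 * k ^ 8 := by ring
    have h6 : 7030400 * 3400 * (k:ℝ) ^ 8 < 256 * (7030400 * 3400 * (k:ℝ) ^ 8) := by
      have : (0:ℝ) < 7030400 * 3400 * (k:ℝ) ^ 8 := by positivity
      linarith
    calc 7030400 * 3400 * (k:ℝ) ^ 8 < 256 * (7030400 * 3400 * (k:ℝ) ^ 8) := h6
      _ = 256 * k ^ 8 * (7030400 * 3400) := by ring
      _ ≤ 256 * k ^ 8 * (Real.exp (E * Real.log (2 * k)) * c) := by gcongr
      _ = c * Real.exp ((8 + E) * Real.log (2 * k)) := by rw [h2, h5]; ring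
      _ ≤ c * Real.exp x := by gcongr
  rw [h2n]
  have hex := Real.exp_pos x
  calc 7030400 * (k:ℝ) ^ 8 * (n + 2) ^ 4 ≤ 7030400 * (k:ℝ) ^ 8 * (3400 * Real.exp x) := by gcongr
    _ = 7030400 * 3400 * (k:ℝ) ^ 8 * Real.exp x := by ring
    _ < c * Real.exp x * Real.exp x := by gcongr
    _ = c * (Real.exp x * Real.exp x) := by ring

end Pool.Agent.H338R2.AS
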